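import Mathlib
import Pool.Agent.Helper41K9.SR.Final

/-!
# Slice rank has the linear core property

For every field `F`, every `d ≥ 2` and every `d`-tensor `T` over `F` there are sets of indices
`J_1, …, J_d`, each of size at most the slice rank of `T`, such that the slice rank of the
restriction of `T` to `J_1 × ⋯ × J_d` is at least `(16 d²)^{-d}` times the slice rank of `T`.
So slice rank has the linear core property with `L = 1` and a constant `β` depending only on `d`.
For `d ≤ 3` partition rank equals slice rank, so it has the linear core property too.

Idea of the proof.  A weighted frame for a multilinear form `f` is a basis of each factor together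
with nonnegative weights, such that `f (b_1, …, b_d) ≠ 0` forces the weights of the basis vectors
to add up to at least `1`.  The cost of a frame is the sum of the squares of the weights, and the
least cost `N f` is comparable to slice rank: `N f ≤ sliceRank f ≤ 4 d² N f`.  Two weighted flags of
a space have a common adapted basis, so averaging shows that an almost optimal frame is close to
every almost optimal frame.  Starting from the empty set of indices in one direction we add indices
one at a time: an index whose coordinate vector cannot be corrected by the chosen coordinates so as
to be compatible with the optimal frame raises `N` by at least `1/(16 d)`, while if there is no such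
index then the optimal frame extends to the whole form and `N` is already comparable to the slice
rank of `T`.
-/

set_option autoImplicit false

noncomputable section

namespace Pool.Agent.Results.MP_898d8d_co.SliceRankLinearCore

open Pool.Agent.Helper41K9.SR

/-- Slice rank has the linear core property over every field and in every order `d ≥ 2`; so does
partition rank for `d ≤ 3`. -/
theorem result {F : Type*} [Field F] (d : ℕ) (hd : 2 ≤ d) :
    (∀ T : Tensor F d, ∃ J : Fin d → Finset ℕ, (∀ i, (J i).card ≤ sliceRank T) ∧
      sliceRank T ≤ (16 * d ^ 2) ^ d * sliceRank (restrict J T)) ∧
    LinearCoreProperty (fun T : Tensor F d => (sliceRank T : ℝ)) ∧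
    (d ≤ 3 → LinearCoreProperty (fun T : Tensor F d => (partitionRank T : ℝ))) := by
  have hd0 : 0 < d := by omega
  have h1 := linear_of_core (F := F) (d := d) sliceRank ((16 * d ^ 2) ^ d) (by positivity)
    (sliceRank_core hd0)
  refine ⟨sliceRank_core hd0, h1, fun hd3 => ?_⟩
  have h2 : (fun T : Tensor F d => (partitionRank T : ℝ)) = fun T => (sliceRank T : ℝ) := by
    funext T
    rw [partitionRank_eq hd hd3 T]
  rw [h2]
  exact h1

end Pool.Agent.Results.MP_898d8d_co.SliceRankLinearCore
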